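import Pool.Agent.Helper33.Iso.Goals

/-!
# Packet ISO-SIGMA
-/

set_option autoImplicit false

open Topology unitInterval RealInnerProductSpace
open Pool.Agent.Helper72.Orb
open Pool.Agent.Helper33.Iso

namespace Pool.Agent.Helper25.Iso

universe u v w

theorem norm_smul_nrm {V : Type w} [NormedAddCommGroup V] [InnerProductSpace ℝ V] (x : V)
    (hx : x ≠ 0) : ‖x‖ • nrm x = x := by
  unfold nrm
  rw [smul_smul, mul_inv_cancel₀ (norm_ne_zero_iff.2 hx), one_smul]

theorem abs_inner_le_one {V : Type w} [NormedAddCommGroup V] [InnerProductSpace ℝ V] (x y : V)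
    (hx : ‖x‖ = 1) (hy : ‖y‖ = 1) : |⟪x, y⟫| ≤ 1 := by
  have h := abs_real_inner_le_norm x y
  rw [hx, hy, one_mul] at h
  exact h

/-- Case `‖ξ‖ = 1`. -/
theorem caseA {V : Type w} [NormedAddCommGroup V] [InnerProductSpace ℝ V] (p p' y v w : V)
    (δ r : ℝ) (hp : ‖p‖ = 1) (hδ : 0 < δ) (h1 : δ < 1 - ⟪p', p⟫) (hr0 : 0 ≤ r) (hr1 : r < 1)
    (hw : w ≠ 0) (hv : v = nrm w) (hv1 : ‖v‖ = 1) (hy : y = p + δ • v) :
    0 < ⟪p, (1 - r) • p + r • (y - p')⟫ ∧ (1 - r) • w + r • (y - p) ≠ 0 := by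
  have hpp : ⟪p, p⟫ = (1 : ℝ) := by rw [real_inner_self_eq_norm_sq, hp]; norm_num
  have hpv := abs_inner_le_one p v hp hv1
  have hpv' := abs_le.1 hpv
  constructor
  · rw [hy, inner_add_right, inner_smul_right, inner_smul_right, inner_sub_right,
      inner_add_right, inner_smul_right, hpp, real_inner_comm p' p] at *
    have h2 : -δ ≤ δ * ⟪p, v⟫ := by nlinarith [hpv'.1]
    have h3 : 0 ≤ r * (1 + δ * ⟪p, v⟫ - ⟪p', p⟫) := by
      apply mul_nonneg hr0
      linarith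
    nlinarith
  · have hww : w = ‖w‖ • v := by rw [hv, norm_smul_nrm w hw]
    have h4 : (1 - r) • w + r • (y - p) = ((1 - r) * ‖w‖ + r * δ) • v := by
      rw [hy]
      conv_lhs => rw [hww]
      module
    rw [h4]
    have h5 : 0 < ‖w‖ := norm_pos_iff.2 hw
    have h6 : 0 < (1 - r) * ‖w‖ + r * δ := by
      have : 0 < (1 - r) * ‖w‖ := mul_pos (by linarith) h5
      have : 0 ≤ r * δ := mul_nonneg hr0 hδ.le
      linarith
    intro h7
    rcases smul_eq_zero.1 h7 with h8 | h8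
    · exact h6.ne' h8
    · rw [h8, norm_zero] at hv1
      exact zero_ne_one hv1

/-- Case `‖η‖ = 1`. -/
theorem caseB {V : Type w} [NormedAddCommGroup V] [InnerProductSpace ℝ V] (p p' y v w : V)
    (δ r : ℝ) (hp : ‖p‖ = 1) (hδ : 0 < δ) (hδ1 : δ < 1) (h1 : δ < 2 - ‖p + p'‖) (hr0 : 0 ≤ r)
    (hr1 : r < 1) (hw : w ≠ 0) (hv : v = nrm w) (hv1 : ‖v‖ = 1) (hy : y = -p + (2 - δ) • v) :
    (1 - r) • w + r • (y - p') ≠ 0 ∧ ⟪p, (1 - r) • (-p) + r • (y - p)⟫ < 0 := by
  have hpp : ⟪p, p⟫ = (1 : ℝ) := by rw [real_inner_self_eq_norm_sq, hp]; norm_num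
  have hpv := abs_inner_le_one p v hp hv1
  have hpv' := abs_le.1 hpv
  constructor
  · have hww : w = ‖w‖ • v := by rw [hv, norm_smul_nrm w hw]
    have h4 : (1 - r) • w + r • (y - p') =
        ((1 - r) * ‖w‖ + r * (2 - δ)) • v - r • (p + p') := by
      rw [hy]
      conv_lhs => rw [hww]
      module
    rw [h4]
    have h5 : 0 < ‖w‖ := norm_pos_iff.2 hw
    have h6 : 0 < (1 - r) * ‖w‖ := mul_pos (by linarith) h5
    have h7 : 0 ≤ r * (2 - δ - ‖p + p'‖) := mul_nonneg hr0 (by linarith)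
    intro h8
    have h9 : ((1 - r) * ‖w‖ + r * (2 - δ)) • v = r • (p + p') := sub_eq_zero.1 h8
    have h10 := congrArg norm h9
    have h11 : 0 ≤ r * (2 - δ) := mul_nonneg hr0 (by linarith)
    rw [norm_smul, norm_smul, hv1, mul_one, Real.norm_eq_abs, Real.norm_eq_abs,
      abs_of_nonneg hr0, abs_of_pos (by linarith)] at h10
    nlinarith
  · rw [hy, inner_add_right, inner_smul_right, inner_smul_right, inner_sub_right,
      inner_add_right, inner_smul_right, inner_neg_right, hpp]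
    have h2 : (2 - δ) * ⟪p, v⟫ ≤ 2 - δ := by nlinarith [hpv'.2]
    have h3 : 0 ≤ r * (2 - δ - (2 - δ) * ⟪p, v⟫) := mul_nonneg hr0 (by linarith)
    nlinarith

theorem norm_data {A B : Type w} [NormedAddCommGroup A] [NormedAddCommGroup B] (ξ : A) (η : B)
    (s : ℝ) (h : ‖((ξ, η), s)‖ = 1) : |s| ≤ 1 ∧ (|s| = 1 ∨ ‖ξ‖ = 1 ∨ ‖η‖ = 1) := by
  rw [Prod.norm_def, Prod.norm_def] at h
  simp only [Real.norm_eq_abs] at h
  constructor
  · rw [← h]; exact le_max_right _ _
  · rcases max_choice (max ‖ξ‖ ‖η‖) |s| with h1 | h1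
    · rcases max_choice ‖ξ‖ ‖η‖ with h2 | h2
      · right; left
        rw [← h2, ← h1, h]
      · right; right
        rw [← h2, ← h1, h]
    · left
      rw [← h1, h]

theorem gSIGMA (hMAPS : Pool.Agent.Helper33.Iso.MAPS.{w})
    (_hQFACTS : Pool.Agent.Helper33.Iso.QFACTS.{w}) :
    Pool.Agent.Helper33.Iso.SIGMA.{w} := by
  intro V _ _ _ p p' y δ s ξ η hp hp' hδ h1 h2 hδ1 hn hyp hyp' hA hB
  obtain ⟨huu, hvv, -, -, hu1, hv1, -, -, hun, hvn, -⟩ := hMAPS V p hp
  obtain ⟨hs, hcase⟩ := norm_data ξ η s hn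
  have hs' := abs_le.1 hs
  have hr0 : 0 ≤ max s 0 := le_max_right _ _
  have hpp : ⟪p, p⟫ = (1 : ℝ) := by rw [real_inner_self_eq_norm_sq, hp]; norm_num
  -- the two main cases
  have KA : ‖ξ‖ = 1 → s < 1 →
      0 < ⟪p, (1 - max s 0) • uu p ξ + max s 0 • (y - p')⟫ ∧
        (1 - max s 0) • vv p η + max s 0 • (y - p) ≠ 0 := by
    intro h3 h4
    have h5 : max s 0 < 1 := max_lt h4 zero_lt_one
    have h6 := caseA p p' y (nrm (vv p η)) (vv p η) δ (max s 0) hp hδ h1 hr0 h5 (hvv η) rfl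
      (hvn η) (hA h3)
    rw [(hu1 ξ h3).1]
    exact h6
  have KB : ‖η‖ = 1 → s < 1 →
      (1 - max s 0) • uu p ξ + max s 0 • (y - p') ≠ 0 ∧
        ⟪p, (1 - max s 0) • vv p η + max s 0 • (y - p)⟫ < 0 := by
    intro h3 h4
    have h5 : max s 0 < 1 := max_lt h4 zero_lt_one
    have h6 := caseB p p' y (nrm (uu p ξ)) (uu p ξ) δ (max s 0) hp hδ hδ1 h2 hr0 h5 (huu ξ) rfl
      (hun ξ) (hB h3)
    rw [(hv1 η h3).2.1]
    exact h6
  have nz : ∀ x : V, ⟪p, x⟫ ≠ 0 → x ≠ 0 := by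
    intro x hx h0
    rw [h0, inner_zero_right] at hx
    exact hx rfl
  have main1 : (1 - max s 0) • uu p ξ + max s 0 • (y - p') ≠ 0 ∧
      (1 - max s 0) • vv p η + max s 0 • (y - p) ≠ 0 := by
    rcases le_or_gt s 0 with h3 | h3
    · rw [max_eq_right h3]
      simp only [sub_zero, one_smul, zero_smul, add_zero]
      exact ⟨huu ξ, hvv η⟩
    · rcases hs'.2.lt_or_eq with h4 | h4
      · rcases hcase with h5 | h5 | h5
        · rw [abs_of_pos h3] at h5
          exact absurd h5 h4.ne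
        · obtain ⟨h6, h7⟩ := KA h5 h4
          exact ⟨nz _ h6.ne', h7⟩
        · obtain ⟨h6, h7⟩ := KB h5 h4
          exact ⟨h6, nz _ h7.ne⟩
      · rw [max_eq_left h3.le, h4]
        simp only [sub_self, zero_smul, one_smul, zero_add]
        exact ⟨sub_ne_zero.2 hyp', sub_ne_zero.2 hyp⟩
  refine ⟨main1.1, main1.2, ?_⟩
  rintro h3 a b ha hb ⟨e1, e2⟩
  rcases hs'.2.lt_or_eq with h4 | h4
  · rcases hcase with h5 | h5 | h5
    · rcases eq_or_eq_neg_of_abs_eq h5 with h6 | h6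
      · exact h4.ne h6
      · exact h3.ne' h6
    · obtain ⟨h6, -⟩ := KA h5 h4
      rw [e1, inner_neg_right, inner_smul_right, hpp] at h6
      linarith
    · obtain ⟨-, h7⟩ := KB h5 h4
      rw [e2, inner_smul_right, hpp] at h7
      linarith
  · rw [max_eq_left (by linarith), h4] at e1 e2
    simp only [sub_self, zero_smul, one_smul, zero_add] at e1 e2
    have h5 : p' = (1 + a + b) • p := by
      have h6 : y = b • p + p := sub_eq_iff_eq_add.1 e2
      have h7 : p' = y + a • p := by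
        have h8 : y = -(a • p) + p' := sub_eq_iff_eq_add.1 e1
        rw [h8]; module
      rw [h7, h6]; module
    have h6 := congrArg norm h5
    rw [hp', norm_smul, hp, mul_one, Real.norm_eq_abs, abs_of_pos (by linarith)] at h6
    linarith

end Pool.Agent.Helper25.Iso
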